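import Pool.Agent.X310.Odd
import Pool.Agent.W537.OneCycleB

/-!
# One system of cycles for all theories and the ranks of the groups of cycles for one theory
-/

set_option autoImplicit false

open CategoryTheory AlgebraicGeometry Finset

universe u v

namespace Pool.Agent.U854.OS

open Pool.Agent.H914 Pool.Agent.H447 Pool.Agent.W534 Pool.Agent.W537 Pool.Agent.TH720.LB VarClass
  Obj WeilCohomology Pool.Agent.X310 Pool.Agent.X310.Gap

variable {k : Type u} [Field k] {𝒱 : VarClass k} {ops : CycleOps 𝒱}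

/-- `(E, i : Y ⟶ X)` is a hyperplane section of `X` for the theory `W`: `E` is a divisor on `X`
with hard Lefschetz, `dim X = dim Y + 1`, `i_* [Y] = [E]`, and `i` satisfies weak Lefschetz. -/
structure IsSection (W : WeilCohomology.{u, v} ops) {X Y : 𝒱.Obj} (i : Y ⟶ X) (E : X.Cycles) :
    Prop where
  div : X.IsCyc 1 E
  hard : HardLefschetz W X E
  dim : X.dim = Y.dim + 1
  cl : W.cl X (ops.push i Y.V.fundCycle) = W.cl X E
  weak : WeakLefschetz W i

/-- For every divisor `E` on `X` with hard Lefschetz for `W` there are cycles `Λ i`, of codimension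
`i` on `X × X`, which induce the inverses of `E ^ (n - i) : H^i(X) → H^(2n - i)(X)`, `i ≤ n = dim X`,
for all the theories `W'` with the same Betti numbers of `X` as `W`. -/
def OneSystem (W : WeilCohomology.{u, v} ops) (X : 𝒱.Obj) : Prop :=
  ∀ E : X.Cycles, X.IsCyc 1 E → HardLefschetz W X E → ∃ Λ : ℕ → (X.prod X).Cycles,
    ∀ W' : WeilCohomology.{u, v} ops, (∀ i ≤ X.dim, W'.betti X i = W.betti X i) →
      ∀ i ≤ X.dim, InducesInverse W' X E i (Λ i)

variable {W : WeilCohomology.{u, v} ops} {X Y P : 𝒱.Obj}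

/-- The conjecture B gives algebraic inverses of the Lefschetz isomorphisms (copied from
`W550/B/Top`). -/
lemma exists_inverts {D : Y.Cycles} (hD : Y.IsCyc 1 D) (hHL : HardLefschetz W Y D)
    (hB : LefschetzB W Y D) : ∀ i ≤ Y.dim, ∃ z, InvertsLefschetz W Y D i z := by
  intro i hi
  obtain ⟨Φ, hΦ, hLam⟩ := lefschetzB_iff_rop.1 hB
  obtain ⟨F, hF, hFW⟩ := rop_opAlg.cast (rop_opAlg.pow hΦ (Y.dim - i))
    (show ((Y.dim - i : ℕ) : ℤ) * (-1) = -((Y.dim - i : ℕ) : ℤ) by ring)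
  obtain ⟨z, hz, hz'⟩ := cyc_of_realized hi hF
  refine ⟨z, (inverts_iff hD W hi).2 ⟨hz, fun a ha => ?_⟩⟩
  rw [← hz', hFW]
  exact lam_pow_L_pow (LL_isHom hD W) W_hbd hHL hLam (by omega) ha

/-- algebraic inverses for one theory give the conjecture B -/
lemma lefschetzB_of_inverts {D : X.Cycles} (hD : X.IsCyc 1 D) (hHL : HardLefschetz W X D)
    (h : ∀ i ≤ X.dim, ∃ z, InvertsLefschetz W X D i z) : LefschetzB W X D := by
  refine (lefschetzB_iff_kinv hD hHL).2 fun c hc => ?_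
  obtain ⟨z, hz, h1, -⟩ := h (X.dim - c) (by omega)
  refine ⟨W.corr (W.cl _ z), kop_cast (KOp.gen (p := X.dim - c) (by omega) hz) rfl, fun a ha => ?_⟩
  have h2 := h1 a ha
  rw [show X.dim - (X.dim - c) = c by omega] at h2
  exact h2

/-- the conjecture B for one divisor gives one system for all divisors and all theories -/
lemma oneSystem_of_B {D : X.Cycles} (hD : X.IsCyc 1 D) (hHL : HardLefschetz W X D)
    (hB : LefschetzB W X D) : OneSystem W X := by
  intro E hE hHLE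
  obtain ⟨Λ, hΛ⟩ := oneCycle hE le_rfl W
    (exists_inverts hE hHLE (lefschetzB_indep hD hHL hE hHLE hB))
  exact ⟨Λ, fun W' hW' => ((hΛ W').out 0 2).1 hW'⟩

lemma B_of_oneSystem {D : X.Cycles} (hD : X.IsCyc 1 D) (hHL : HardLefschetz W X D)
    (h : OneSystem W X) : LefschetzB W X D := by
  obtain ⟨Λ, hΛ⟩ := h D hD hHL
  exact lefschetzB_of_inverts hD hHL fun i hi => ⟨Λ i, (hΛ W (fun _ _ => rfl) i hi).1⟩

/-- **One variety and a hyperplane section.** -/
theorem section_iff {i : Y ⟶ X} {E : X.Cycles} (h : IsSection W i E) :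
    OneSystem W X ↔ cycleRank W (X.prod Y) Y.dim = cycleRank W (X.prod Y) X.dim := by
  have key := (hyperplane_tfae h.dim h.div h.cl h.hard h.weak).out 0 3
  exact ⟨fun h1 => key.1 (B_of_oneSystem h.div h.hard h1),
    fun h1 => oneSystem_of_B h.div h.hard (key.2 h1)⟩

/-- **One variety and its square.** -/
theorem square_iff (hn : 1 ≤ X.dim) {D : X.Cycles} (hD : X.IsCyc 1 D) (hHL : HardLefschetz W X D) :
    OneSystem W X ↔
      cycleRank W (X.prod X) ((X.dim : ℤ) - 1) = cycleRank W (X.prod X) ((X.dim : ℤ) + 1) := by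
  constructor
  · intro h1
    refine rank_of_lefschetzAIn hn hD hHL fun z hz => ?_
    obtain ⟨z', hz', h2⟩ := uniform_square hn hD hHL (B_of_oneSystem hD hHL h1) (X.dim - 1)
      (by rw [dim_prod]; omega) z hz
    exact ⟨z', hz', h2 W fun _ => rfl⟩
  · intro h1
    exact oneSystem_of_B hD hHL (lefschetzB_of_rank hD hHL h1)

/-- the line times a variety -/
lemma oneSystem_down {h : P.Cycles} (hP : IsLine W P h) {D : X.Cycles} (hD : X.IsCyc 1 D)
    (hHL : HardLefschetz W X D) (h1 : OneSystem W (X.prod P)) : OneSystem W X :=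
  oneSystem_of_B hD hHL (lefschetzB_of_line hP hD hHL
    (B_of_oneSystem (isCyc_sumDiv hD hP.proj.to.div) (hP.hard_prod hD hHL) h1))

/-- from the dimension `n` to the smaller dimensions -/
lemma down {h : P.Cycles} (hP : IsLine W P h) {n : ℕ}
    (hn : ∀ X : 𝒱.Obj, X.dim = n → OneSystem W X) :
    ∀ r, ∀ X : 𝒱.Obj, X.dim + r = n → OneSystem W X := by
  intro r
  induction r with
  | zero => exact fun X h => hn X h
  | succ r ih =>
    intro X hX E hE hHL
    exact oneSystem_down hP hE hHL (ih (X.prod P) (by rw [dim_prod, hP.dim]; omega)) E hE hHL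

/-- **All varieties of dimension at most `n`.** -/
theorem dim_tfae {h : P.Cycles} (hP : IsLine W P h)
    (hsec : ∀ X : 𝒱.Obj, 1 ≤ X.dim → ∃ (Y : 𝒱.Obj) (i : Y ⟶ X) (E : X.Cycles), IsSection W i E)
    {n : ℕ} (hn : 1 ≤ n) :
    List.TFAE [
      ∀ X : 𝒱.Obj, X.dim ≤ n → OneSystem W X,
      ∀ X : 𝒱.Obj, X.dim = n → ∃ (Y : 𝒱.Obj) (i : Y ⟶ X) (E : X.Cycles), IsSection W i E ∧
        cycleRank W (X.prod Y) ((n : ℤ) - 1) = cycleRank W (X.prod Y) n,
      ∀ X : 𝒱.Obj, X.dim = n →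
        cycleRank W (X.prod X) ((n : ℤ) - 1) = cycleRank W (X.prod X) ((n : ℤ) + 1)] := by
  have hdown := fun (h0 : ∀ X : 𝒱.Obj, X.dim = n → OneSystem W X) (X : 𝒱.Obj) (hX : X.dim ≤ n) =>
    down hP h0 (n - X.dim) X (by omega)
  tfae_have 1 → 2 := by
    intro h1 X hX
    obtain ⟨Y, i, E, hs⟩ := hsec X (by omega)
    refine ⟨Y, i, E, hs, ?_⟩
    have h2 := (section_iff hs).1 (h1 X hX.le)
    have e : (Y.dim : ℤ) = (n : ℤ) - 1 := by
      have := hs.dim
      omega
    rwa [e, hX] at h2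
  tfae_have 2 → 1 := by
    intro h1
    refine hdown fun X hX => ?_
    obtain ⟨Y, i, E, hs, h2⟩ := h1 X hX
    have e : (Y.dim : ℤ) = (n : ℤ) - 1 := by
      have := hs.dim
      omega
    rw [← e, ← hX] at h2
    exact (section_iff hs).2 h2
  tfae_have 1 → 3 := by
    intro h1 X hX
    obtain ⟨Y, i, E, hs⟩ := hsec X (by omega)
    have h2 := (square_iff (by omega) hs.div hs.hard).1 (h1 X hX.le)
    rwa [hX] at h2
  tfae_have 3 → 1 := by
    intro h1
    refine hdown fun X hX => ?_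
    obtain ⟨Y, i, E, hs⟩ := hsec X (by omega)
    refine (square_iff (by omega) hs.div hs.hard).2 ?_
    have h2 := h1 X hX
    rwa [← hX] at h2
  tfae_finish

/-- **All varieties.** -/
theorem all_tfae {h : P.Cycles} (hP : IsLine W P h)
    (hsec : ∀ X : 𝒱.Obj, 1 ≤ X.dim → ∃ (Y : 𝒱.Obj) (i : Y ⟶ X) (E : X.Cycles), IsSection W i E) :
    List.TFAE [
      ∀ X : 𝒱.Obj, OneSystem W X,
      ∀ (X : 𝒱.Obj) (p q : ℕ), p + q = X.dim → cycleRank W X p = cycleRank W X q,
      {n : ℕ | ∀ X : 𝒱.Obj, X.dim = n → ∃ (Y : 𝒱.Obj) (i : Y ⟶ X) (E : X.Cycles),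
        IsSection W i E ∧ cycleRank W (X.prod Y) ((n : ℤ) - 1) = cycleRank W (X.prod Y) n}.Infinite,
      {n : ℕ | ∀ X : 𝒱.Obj, X.dim = n →
        cycleRank W (X.prod X) ((n : ℤ) - 1) = cycleRank W (X.prod X) ((n : ℤ) + 1)}.Infinite] := by
  have hinf : ∀ {S : Set ℕ}, S.Infinite → ∀ N : ℕ, ∃ n ∈ S, N ≤ n ∧ 1 ≤ n := by
    intro S hS N
    obtain ⟨n, hn, h1⟩ := hS.exists_gt N
    exact ⟨n, hn, by omega, by omega⟩
  tfae_have 1 → 2 := by
    intro h1 X p q hpq
    rcases Nat.eq_zero_or_pos X.dim with h0 | h2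
    · obtain rfl : p = 0 := by omega
      obtain rfl : q = 0 := by omega
      rfl
    · obtain ⟨Y, i, E, hs⟩ := hsec X h2
      exact rank_of_A hs.div hs.hard
        (lefschetzA_of_B hs.div hs.hard (B_of_oneSystem hs.div hs.hard (h1 X))) hpq
  tfae_have 2 → 3 := by
    intro h1
    refine (Set.infinite_of_not_bddAbove fun ⟨b, hb⟩ => ?_)
    have h2 : b + 1 ∈ {n : ℕ | ∀ X : 𝒱.Obj, X.dim = n → ∃ (Y : 𝒱.Obj) (i : Y ⟶ X) (E : X.Cycles),
        IsSection W i E ∧ cycleRank W (X.prod Y) ((n : ℤ) - 1) = cycleRank W (X.prod Y) n} := by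
      intro X hX
      obtain ⟨Y, i, E, hs⟩ := hsec X (by omega)
      refine ⟨Y, i, E, hs, ?_⟩
      have h3 := h1 (X.prod Y) b (b + 1) (by rw [dim_prod]; have := hs.dim; omega)
      have e : (((b + 1 : ℕ) : ℤ) - 1) = (b : ℤ) := by push_cast; ring
      rw [e]
      exact h3
    have := hb h2
    omega
  tfae_have 2 → 4 := by
    intro h1
    refine (Set.infinite_of_not_bddAbove fun ⟨b, hb⟩ => ?_)
    have h2 : b + 1 ∈ {n : ℕ | ∀ X : 𝒱.Obj, X.dim = n →
        cycleRank W (X.prod X) ((n : ℤ) - 1) = cycleRank W (X.prod X) ((n : ℤ) + 1)} := by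
      intro X hX
      have h3 := h1 (X.prod X) b (b + 2) (by rw [dim_prod]; omega)
      have e : (((b + 1 : ℕ) : ℤ) - 1) = (b : ℤ) := by push_cast; ring
      have e' : (((b + 1 : ℕ) : ℤ) + 1) = ((b + 2 : ℕ) : ℤ) := by push_cast; ring
      rw [e, e']
      exact h3
    have := hb h2
    omega
  tfae_have 3 → 1 := by
    intro h1 X
    obtain ⟨n, hn, h2, h3⟩ := hinf h1 X.dim
    have h4 : ∀ X : 𝒱.Obj, X.dim ≤ n → OneSystem W X := ((dim_tfae hP hsec h3).out 1 0).1 hn
    exact h4 X h2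
  tfae_have 4 → 1 := by
    intro h1 X
    obtain ⟨n, hn, h2, h3⟩ := hinf h1 X.dim
    have h4 : ∀ X : 𝒱.Obj, X.dim ≤ n → OneSystem W X := ((dim_tfae hP hsec h3).out 2 0).1 hn
    exact h4 X h2
  tfae_finish

end Pool.Agent.U854.OS
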